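import Pool.Agent.W918.HL.HW2

/-!
Hall's inequality with every exponent below `1` for the integer points whose cubic
`z ^ 3 - 3 x z + 2 y` has its real roots in a fixed real number field.
-/

set_option autoImplicit false

namespace Pool.Agent.Results.MP_e734ed_nt.FixedCubicField

/-- For every real number field `L` and every `ε > 0` there is `c > 0` with
`c |x| ^ (1 - ε) ≤ |y ^ 2 - x ^ 3|` for all integers `x`, `y` with `y ^ 2 ≠ x ^ 3` such that all real
roots of `z ^ 3 - 3 x z + 2 y` lie in `L`. -/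
theorem result (L : IntermediateField ℚ ℝ) (hL : FiniteDimensional ℚ L) (ε : ℝ) (hε : 0 < ε) :
    ∃ c : ℝ, 0 < c ∧ ∀ x y : ℤ, y ^ 2 ≠ x ^ 3 →
      (∀ z : ℝ, z ^ 3 - 3 * x * z + 2 * y = 0 → z ∈ L) →
      c * |(x : ℝ)| ^ (1 - ε) ≤ |((y ^ 2 - x ^ 3 : ℤ) : ℝ)| :=
  Pool.Agent.W918.HL.hw L hL ε hε

end Pool.Agent.Results.MP_e734ed_nt.FixedCubicField
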